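import Pool.Agent.Lib.MP_bc213e_ag.SB.VC
import Pool.Agent.Lib.MP_bc213e_ag.KBB.Defs
import Pool.Agent.Lib.MP_bc213e_ag.OW.Defs

/-! Definitions for the descent of a nef line bundle to the base of a rational fibration. -/

namespace Pool.Agent.Lib.MP_bc213e_ag.SB

open Pool.Agent.Lib.MP_bc213e_ag.Hyp Pool.Agent.Lib.MP_bc213e_ag.KBB

noncomputable section

variable {K ι : Type} [Field K] [Algebra ℂ K]

/-- The valuation ring `V` contains the constants and the set `T`. -/
def Ov (T : Set K) (V : ValuationSubring K) : Prop :=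
  (∀ c : ℂ, algebraMap ℂ K c ∈ V) ∧ ∀ z ∈ T, z ∈ V

variable (K) in
/-- The first cohomology of the structure sheaf of the space of valuation rings vanishes. -/
def ZQ : Prop :=
  ∀ (κ : Type) [Fintype κ] (T : κ → Set K) (f : κ → K), (∀ i, (T i).Finite) →
    (∀ V, Ov ∅ V → ∃ i, Ov (T i) V) → (∀ i l V, Ov (T i) V → Ov (T l) V → f i - f l ∈ V) →
      ∃ f₀, ∀ i V, Ov (T i) V → f i - f₀ ∈ V

/-- Sections of `t L + a H` divided by `θ ^ t`. -/
def ST (x g : ι → Kˣ) (θ : K) (t a : ℕ) : Submodule ℂ K :=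
  (SecS x g t a).comap (LinearMap.mulRight ℂ (θ ^ t))

theorem mem_ST {x g : ι → Kˣ} {θ : K} {t a : ℕ} {f : K} :
    f ∈ ST x g θ t a ↔ Sec x g t a (f * θ ^ t) := Iff.rfl

/-- The restrictions of the sections of `t L + a H` to the generic fibre. -/
def VV (x g : ι → Kˣ) (k : IntermediateField ℂ K) (θ : K) (a : ℕ) : Submodule k K :=
  Submodule.span k {f | ∃ t : ℕ, f ∈ ST x g θ t a}

/-- `θ` generates `L` on the generic fibre. -/
def Tor (x g : ι → Kˣ) (k : IntermediateField ℂ K) (θ : K) : Prop :=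
  ∀ j (V : ValuationSubring K), (∀ c ∈ k, c ∈ V) → (∀ r ∈ chart x j, r ∈ V) →
    V.valuation θ = V.valuation (g j : K)

/-- `F` is a section of `a H` over the valuation ring `O` of `k`. -/
def Reg (x : ι → Kˣ) {k : IntermediateField ℂ K} (O : ValuationSubring k) (a : ℕ) (F : K) : Prop :=
  ∀ j (V : ValuationSubring K), (∀ c ∈ O, (c : K) ∈ V) → (∀ r ∈ chart x j, r ∈ V) →
    F / (x j : K) ^ a ∈ V

/-- A normal projective model `y` of `k` with a nef line bundle `h` whose pull-back is `L`. -/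
structure Desc (x g : ι → Kˣ) (k : IntermediateField ℂ K) (θ : K) (N : ℕ) where
  y : Fin (N + 1) → kˣ
  h : Fin (N + 1) → kˣ
  one : y 0 = 1
  frac : ∀ b, IsFractionRing (chart y b) k
  norm : ∀ b, IsIntegrallyClosed (chart y b)
  cart : Cart y h
  nef : Nef y h
  cmp : ∀ b j (V : ValuationSubring K), (∀ r ∈ chart y b, (r : K) ∈ V) →
    (∀ r ∈ chart x j, r ∈ V) → V.valuation (((h b : k) : K) * θ) = V.valuation (g j : K)
  hart : ∀ b a (F : K), Reg x (⊤ : ValuationSubring k) a F →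
    (∀ w, PrimeDiv (chart y b) w → Reg x w.valuationSubring a F) →
      ∀ j (V : ValuationSubring K), (∀ r ∈ chart y b, (r : K) ∈ V) →
        (∀ r ∈ chart x j, r ∈ V) → F / (x j : K) ^ a ∈ V

end

end Pool.Agent.Lib.MP_bc213e_ag.SB
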