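import Pool.Agent.Lib.MP_bc213e_ag.Hyp.ADefs

/-! Virtual curves and filtered algebras over them. -/

namespace Pool.Agent.Lib.MP_bc213e_ag.SB

open Pool.Agent.Lib.MP_bc213e_ag.Hyp WithZero Module

noncomputable section

variable {k I : Type} [Field k] [Algebra ℂ k]

/-- The degree of the divisor `M` for the weights `d`. -/
def dg (d : I → ℚ) (M : I →₀ ℤ) : ℚ := M.sum fun i n => (n : ℚ) * d i

/-- The sections of the divisor `M`. -/
def Gm (v : I → Val k) (hv : ∀ i, Triv (v i)) (M : I →₀ ℤ) : Submodule ℂ k where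
  carrier := {f | ∀ i, v i f ≤ exp (M i)}
  add_mem' := fun ha hb i => ((v i).map_add _ _).trans (max_le (ha i) (hb i))
  zero_mem' := fun i => by simp
  smul_mem' := fun c z hz i => by
    rw [Algebra.smul_def, map_mul]
    exact (mul_le_mul' (hv i c) (hz i)).trans_eq (one_mul _)

variable (k I) in
/-- Places `v i` of `k` with weights `d i` and a divisor `D` of degree zero. The number of sections
of `M + t D` grows like `t (deg M + σ)`. -/
structure VC where
  v : I → Val k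
  triv : ∀ i, Triv (v i)
  onto : ∀ i, ∃ π, v i π = exp (-1)
  d : I → ℚ
  d_nonneg : ∀ i, 0 ≤ d i
  D : I →₀ ℤ
  σ : ℚ
  c₁ : ℚ
  pf : ∀ f : k, f ≠ 0 → ∃ M : I →₀ ℤ, (∀ i, v i f = exp (M i)) ∧ dg d M = 0
  degD : dg d D = 0
  fd : ∀ M, FiniteDimensional ℂ (Gm v triv M)
  low : ∀ M, ∃ C : ℚ, ∀ t : ℕ, t * (dg d M + σ) - C ≤ finrank ℂ (Gm v triv (M + t • D))
  mod : ∀ M i, ∃ C : ℚ, ∀ t : ℕ,
    (finrank ℂ (Gm v triv (M + Finsupp.single i 1 + t • D)) : ℚ) ≤
      finrank ℂ (Gm v triv (M + t • D)) + t * d i + C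
  up : ∀ M, ∃ C : ℚ, ∀ t : ℕ,
    (finrank ℂ (Gm v triv (M + t • D)) : ℚ) ≤ t * (max (dg d M) c₁ + σ) + C

/-- Multiplicative lattices in `K` at the places of the virtual curve `C`. -/
structure Lat (C : VC k I) (K : Type) [Field K] [Algebra k K] where
  Λ : ℕ → I → AddSubgroup K
  smul : ∀ a i (c : k), C.v i c ≤ 1 → ∀ f ∈ Λ a i, c • f ∈ Λ a i
  mul : ∀ a b i, ∀ f ∈ Λ a i, ∀ f' ∈ Λ b i, f * f' ∈ Λ (a + b) i
  one : ∀ a i, (1 : K) ∈ Λ a i
  bd : ∀ (a : ℕ) (φ : K →ₗ[k] k), ∃ M : I →₀ ℤ, ∀ i, ∀ f ∈ Λ a i, C.v i (φ f) ≤ exp (M i)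

namespace Lat

variable {C : VC k I} {K : Type} [Field K] [Algebra ℂ K] [Algebra k K] [IsScalarTower ℂ k K]
  (A : Lat C K)

/-- The sections of the lattice of level `a` twisted by `M`. -/
def Γ (a : ℕ) (M : I →₀ ℤ) : Submodule ℂ K where
  carrier := {f | ∀ i (c : k), C.v i c ≤ exp (-M i) → c • f ∈ A.Λ a i}
  add_mem' := fun ha hb i c hc => by
    rw [smul_add]
    exact add_mem (ha i c hc) (hb i c hc)
  zero_mem' := fun i c _ => by
    rw [smul_zero]
    exact zero_mem _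
  smul_mem' := fun z f hf i c hc => by
    rw [← algebraMap_smul k z f, smul_comm]
    exact A.smul a i _ (C.triv i z) _ (hf i c hc)

/-- The span over `k` of the sections of level `a`. -/
def V (a : ℕ) : Submodule k K := Submodule.span k {f | ∃ t : ℕ, f ∈ A.Γ a (t • C.D)}

end Lat

end

end Pool.Agent.Lib.MP_bc213e_ag.SB
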